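import Pool.Agent.Helper61.QL.Goals
import Pool.Agent.Helper14.QS.DAT

/-!
# Project QL: the data of the ODE part
-/

set_option autoImplicit false

open Set ComplexConjugate

namespace Pool.Agent.Helper29.QL

open Pool.Agent.Helper61 Pool.Agent.Helper61.QG Pool.Agent.Helper61.QT Pool.Agent.Helper61.QL
open Pool.Agent.Helper61.QS (En W R4 act)
open Pool.Agent.Helper61.QM (Mm)

theorem fderiv_per (Λ : ℝ × ℝ → ℝ) (hper : ∀ r α, Λ (r, α + 2 * Real.pi) = Λ (r, α)) (r α : ℝ) :
    fderiv ℝ Λ (r, α + 2 * Real.pi) = fderiv ℝ Λ (r, α) := by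
  have h1 : (fun z : ℝ × ℝ => Λ (z + (0, 2 * Real.pi))) = Λ := by
    funext z
    obtain ⟨a, b⟩ := z
    show Λ ((a, b) + (0, 2 * Real.pi)) = Λ (a, b)
    rw [Prod.mk_add_mk, add_zero]
    exact hper a b
  have h2 := fderiv_comp_add_right (𝕜 := ℝ) (f := Λ) (x := (r, α)) ((0, 2 * Real.pi) : ℝ × ℝ)
  rw [h1, Prod.mk_add_mk, add_zero] at h2
  exact h2.symm

theorem goalDTL (hPL : QS.G_PL) (hPOL : G_POL) : G_DTL := by
  intro m Λ hΛ k n e B hB hF
  obtain ⟨hsm0, hX0, hT0, hfd0, _⟩ := hPL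
  obtain ⟨hP, hTw, hfd⟩ := hPOL m Λ hΛ
  have hsm := hP.smooth
  have hX := hP.mem
  have hT := hP.tan
  have hfsm : ContDiff ℝ 2 (fderiv ℝ (polL Λ)) := hsm.fderiv_right (by norm_num)
  have hBp : ContDiff ℝ 2 (fun x => B (polL Λ x)) := (hB.smooth_B.comp hsm).of_le (by norm_num)
  have hep : ContDiff ℝ 3 (fun x => e (polL Λ x)) := hB.smooth_e.comp hsm
  have hbb : ContDiff ℝ 2 (bG B (polL Λ)) := hBp.clm_apply (hfsm.clm_apply contDiff_const)
  have hcc : ContDiff ℝ 2 (cG B (polL Λ)) := hBp.clm_apply (hfsm.clm_apply contDiff_const)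
  have hchain : ∀ x a, fderiv ℝ (fun x => e (polL Λ x)) x a =
      B (polL Λ x) (fderiv ℝ (polL Λ) x a) * e (polL Λ x) -
        e (polL Λ x) * B (polL Λ x) (fderiv ℝ (polL Λ) x a) := by
    intro x a
    have h1 : fderiv ℝ (fun x => e (polL Λ x)) x =
        (fderiv ℝ e (polL Λ x)).comp (fderiv ℝ (polL Λ) x) := by
      apply fderiv_comp x
      · exact (hB.smooth_e.differentiable (by norm_num)) _
      · exact (hsm.differentiable (by norm_num)) _
    rw [h1, ContinuousLinearMap.comp_apply, hB.par _ (hX x) _ (hT x a)]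
  have hexp : ∀ t : ℝ, Complex.exp (((t + 2 * Real.pi : ℝ) : ℂ) * Complex.I) =
      Complex.exp ((t : ℂ) * Complex.I) := by
    intro t
    push_cast
    rw [add_mul, Complex.exp_add, Complex.exp_two_pi_mul_I, mul_one]
  have pα : ∀ r θ α β : ℝ, polL Λ (r, θ, α + 2 * Real.pi, β) = polL Λ (r, θ, α, β) := by
    intro r θ α β
    simp only [polL, shL, QS.pol]
    rw [hexp, hΛ.per]
  have pβ : ∀ r θ α β : ℝ, polL Λ (r, θ, α, β + 2 * Real.pi) = polL Λ (r, θ, α, β) := by
    intro r θ α β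
    simp only [polL, shL, QS.pol]
    rw [add_right_comm, hexp]
  have fα : ∀ (r θ α β : ℝ) (a : R4), fderiv ℝ (polL Λ) (r, θ, α + 2 * Real.pi, β) a =
      fderiv ℝ (polL Λ) (r, θ, α, β) a := by
    intro r θ α β a
    rw [hfd, hfd, hfd0, hfd0]
    simp only [shL]
    rw [hexp, hΛ.per, fderiv_per Λ hΛ.per]
  have fβ : ∀ (r θ α β : ℝ) (a : R4), fderiv ℝ (polL Λ) (r, θ, α, β + 2 * Real.pi) a =
      fderiv ℝ (polL Λ) (r, θ, α, β) a := by
    intro r θ α β a
    rw [hfd, hfd, hfd0, hfd0]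
    simp only [shL]
    rw [add_right_comm, hexp]
  refine
    { smε := hep.of_le (by norm_num)
      smb := hbb.of_le (by norm_num)
      smc := hcc.of_le (by norm_num)
      idem := fun x => hB.idem _ (hX x)
      symm := fun x => hB.symm _ (hX x)
      skb := fun x => hB.skew _ (hX x) _ (hT x _)
      skc := fun x => hB.skew _ (hX x) _ (hT x _)
      dr := fun x => hchain x _
      dt := fun x => hchain x _
      flat := ?_
      perα := ?_
      perβ := ?_
      r0 := ?_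
      r1 := ?_
      t0 := ?_
      t1 := ?_ }
  · have hcont : Continuous (fun x => FG B (polL Λ) x * e (polL Λ x)) := by
      have c1 : Continuous (fun x => fderiv ℝ (cG B (polL Λ)) x (1, 0, 0, 0)) :=
        (hcc.continuous_fderiv (by norm_num)).clm_apply continuous_const
      have c2 : Continuous (fun x => fderiv ℝ (bG B (polL Λ)) x (0, 1, 0, 0)) :=
        (hbb.continuous_fderiv (by norm_num)).clm_apply continuous_const
      have c3 := hbb.continuous
      have c4 := hcc.continuous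
      have c5 := hep.continuous
      unfold FG
      exact (((c1.sub c2).sub ((c3.mul c4).sub (c4.mul c3)))).mul c5
    have h0 : (fun x => FG B (polL Λ) x * e (polL Λ x)) = fun _ => 0 :=
      hcont.ext_on hP.dense continuous_const (fun x hx => hF x hx)
    intro x
    exact congrFun h0 x
  · intro r θ α β
    refine ⟨?_, ?_, ?_⟩
    · simp only [pα]
    · simp only [bG, fα, pα]
    · simp only [cG, fα, pα]
  · intro r θ α β
    refine ⟨?_, ?_, ?_⟩
    · simp only [pβ]
    · simp only [bG, fβ, pβ]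
    · simp only [cG, fβ, pβ]
  · intro θ α β
    have p0 : polL Λ (0, θ, α, β) = polL Λ (0, θ, 0, β) := by
      simp [polL, shL, QS.pol, hΛ.zero]
    have f0 : fderiv ℝ (polL Λ) (0, θ, α, β) (0, 1, 0, 0) =
        fderiv ℝ (polL Λ) (0, θ, 0, β) (0, 1, 0, 0) := by
      have hz : ((0, 0) : ℝ × ℝ) = 0 := rfl
      have hΛ0 : Λ 0 = 0 := hΛ.zero 0
      rw [hfd, hfd, hfd0, hfd0]
      simp [shL, hΛ.zero, hz, hΛ0]
    refine ⟨?_, ?_⟩
    · simp only [p0]
    · simp only [cG, f0, p0]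
  · intro θ α β
    have hz : ‖Complex.exp ((α : ℂ) * Complex.I)‖ = 1 := Complex.norm_exp_ofReal_mul_I α
    have hb : ∀ β' : ℝ, Complex.exp ((α : ℂ) * Complex.I) ^ m *
        Complex.exp (((β' - m * α : ℝ) : ℂ) * Complex.I) = Complex.exp ((β' : ℂ) * Complex.I) := by
      intro β'
      rw [← Complex.exp_int_mul, ← Complex.exp_add]
      congr 1
      push_cast
      ring
    have hs : β - twL m Λ α + Λ (Real.pi / 2, 0) = β + Λ (Real.pi / 2, α) - m * α := by
      unfold twL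
      ring
    have p1 : polL Λ (Real.pi / 2, θ, α, β) =
        act m (Complex.exp ((α : ℂ) * Complex.I))
          (polL Λ (Real.pi / 2, θ, 0, β - twL m Λ α)) := by
      simp only [polL, shL, QS.pol, act, hs]
      rw [← mul_assoc (Complex.exp ((α : ℂ) * Complex.I) ^ m), hb]
      simp
    have f1 : fderiv ℝ (polL Λ) (Real.pi / 2, θ, α, β) (0, 1, 0, 0) =
        act m (Complex.exp ((α : ℂ) * Complex.I))
          (fderiv ℝ (polL Λ) (Real.pi / 2, θ, 0, β - twL m Λ α) (0, 1, 0, 0)) := by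
      have hz : ((0, 0) : ℝ × ℝ) = 0 := rfl
      rw [hfd, hfd, hfd0, hfd0]
      simp only [shL, act, hs]
      rw [← mul_assoc (Complex.exp ((α : ℂ) * Complex.I) ^ m), hb]
      simp [hz]
    refine ⟨?_, ?_⟩
    · show e (polL Λ (Real.pi / 2, θ, α, β)) = e (polL Λ (Real.pi / 2, θ, 0, β - twL m Λ α))
      rw [p1]
      exact hB.inv _ ⟨_, hz, rfl⟩ _ (hX _)
    · simp only [cG]
      rw [p1, f1]
      exact hB.inv_B _ ⟨_, hz, rfl⟩ _ (hX _) _ (hT _ _)
  · intro r α β
    have p0 : polL Λ (r, 0, α, β) = polL Λ (r, 0, α, 0) := by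
      simp [polL, shL, QS.pol]
    have f0 : fderiv ℝ (polL Λ) (r, 0, α, β) (1, 0, 0, 0) =
        fderiv ℝ (polL Λ) (r, 0, α, 0) (1, 0, 0, 0) := by
      rw [hfd, hfd, hfd0, hfd0]
      simp [shL]
    refine ⟨?_, ?_⟩
    · simp only [p0]
    · simp only [bG, f0, p0]
  · intro r α β
    have p0 : polL Λ (r, Real.pi, α, β) = polL Λ (r, Real.pi, α, 0) := by
      simp [polL, shL, QS.pol]
    have f0 : fderiv ℝ (polL Λ) (r, Real.pi, α, β) (1, 0, 0, 0) =
        fderiv ℝ (polL Λ) (r, Real.pi, α, 0) (1, 0, 0, 0) := by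
      rw [hfd, hfd, hfd0, hfd0]
      simp [shL]
    refine ⟨?_, ?_⟩
    · simp only [p0]
    · simp only [bG, f0, p0]

end Pool.Agent.Helper29.QL
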